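import Pool.Agent.H240R3.WT.Stmts

/-! Proof of `TaskB` (project WT). -/

set_option autoImplicit false

namespace Pool.Agent.H614R3.WT

open Pool.Agent.H240R3.WT

open Classical in
theorem sum_adj {n : ℕ} (G : SimpleGraph (Fin n)) (x : ℝ) :
    ∑ i, ∑ j, (if G.Adj i j then x else 0) = 2 * (x * (G.edgeSet.ncard : ℝ)) := by
  have h1 : ∑ v, G.degree v = 2 * G.edgeSet.ncard := by
    rw [SimpleGraph.sum_degrees_eq_twice_card_edges, ← SimpleGraph.coe_edgeFinset,
      Set.ncard_coe_finset]
  have h2 : ∀ i, ∑ j, (if G.Adj i j then x else 0) = x * (G.degree i : ℝ) := by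
    intro i
    rw [← Finset.sum_filter, Finset.sum_const, nsmul_eq_mul, mul_comm]
    congr 2
    rw [← SimpleGraph.card_neighborFinset_eq_degree]
    congr 1
    ext j
    simp
  rw [Finset.sum_congr rfl fun i _ => h2 i, ← Finset.mul_sum, ← Nat.cast_sum, h1]
  push_cast
  ring

theorem taskB : TaskB := by
  classical
  intro p G
  have h1 := sum_adj G.red p
  have h2 := sum_adj G.blue (1 - p)
  simp only [Finset.sum_add_distrib]
  unfold wt
  linarith

end Pool.Agent.H614R3.WT
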